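import Pool.Agent.Helper98.EY.StmtsB

set_option autoImplicit false

namespace Pool.Agent.Helper98.EX

open Finset

theorem st_PAR (hLOC : ST_LOC) : ST_PAR := by
  classical
  intro N r l I a b σ m G err η hAdm hab hdis hσ hG herr
  obtain ⟨hL1, hL2, hL3⟩ := hLOC
  set U : ℕ → Finset ℕ := fun t => I.biUnion (fun i => σ i t) with hU
  have hUmem : ∀ t x, x ∈ U t → ∃ j ∈ I, a j < x ∧ x < b j := by
    intro t x hx
    obtain ⟨j, hj, hxj⟩ := Finset.mem_biUnion.1 hx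
    have := Finset.mem_Ioo.1 (hσ j hj t hxj)
    exact ⟨j, hj, this.1, this.2⟩
  -- endpoints
  have hend : ∀ i ∈ I, ∀ t, a i ∉ U t ∧ b i ∉ U t := by
    intro i hi t
    have h1 := (hab i hi).1
    constructor
    · intro h
      obtain ⟨j, hj, h2, h3⟩ := hUmem t _ h
      rcases eq_or_ne i j with rfl | hij
      · omega
      · rcases hdis i hi j hj hij with h4 | h4 <;> omega
    · intro h
      obtain ⟨j, hj, h2, h3⟩ := hUmem t _ h
      rcases eq_or_ne i j with rfl | hij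
      · omega
      · rcases hdis i hi j hj hij with h4 | h4 <;> omega
  have hinter : ∀ i ∈ I, (fun t => U t ∩ Finset.Ioo (a i) (b i)) = σ i := by
    intro i hi
    funext t
    ext x
    rw [Finset.mem_inter]
    constructor
    · rintro ⟨h1, h2⟩
      obtain ⟨j, hj, hxj⟩ := Finset.mem_biUnion.1 h1
      rcases eq_or_ne i j with rfl | hij
      · exact hxj
      · exfalso
        have h3 := Finset.mem_Ioo.1 (hσ j hj t hxj)
        have h4 := Finset.mem_Ioo.1 h2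
        rcases hdis i hi j hj hij with h5 | h5 <;> omega
    · intro h
      exact ⟨Finset.mem_biUnion.2 ⟨i, hi, h⟩, hσ i hi t h⟩
  -- the windows
  have h1 : ∀ i ∈ I, pr r l U m (G i)ᶜ η ≤ err i := by
    intro i hi
    have e : pr r l U m (G i)ᶜ η = pr r l (σ i) m (G i)ᶜ η := by
      have h2 := hL3 N r l U m (a i) (b i) (ind (G i)ᶜ) η (fun t => hend i hi t) (by
        intro ζ ξ h
        have h3 := hG i hi ζ ξ h
        unfold ind
        by_cases h4 : ζ ∈ G i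
        · have h5 := h3.1 h4
          simp [h4, h5]
        · have h5 : ξ ∉ G i := fun h => h4 (h3.2 h)
          simp [h4, h5])
      rw [hinter i hi] at h2
      exact h2
    rw [e]
    exact herr i hi
  have h2 : ∀ i ∈ I, pr r l U m {ξ | cnt ξ (a i) (b i) ≠ cnt η (a i) (b i)} η = 0 :=
    fun i hi => hL2 N r l U m (a i) (b i) η (hab i hi).1 (hab i hi).2 (fun t => hend i hi t)
  have h3 : ∀ x, (∀ i ∈ I, x < a i ∨ b i ≤ x) → pr r l U m {ξ | occ ξ x ≠ occ η x} η = 0 := by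
    intro x hx
    refine hL1 N r l U m x η fun t => ⟨fun h => ?_, fun h => ?_⟩
    · obtain ⟨j, hj, h4, h5⟩ := hUmem t _ h
      rcases hx j hj with h6 | h6 <;> omega
    · obtain ⟨j, hj, h4, h5⟩ := hUmem t _ h
      rcases hx j hj with h6 | h6 <;> omega
  -- the union bound
  set F := (Finset.range N).filter (fun x => ∀ i ∈ I, x < a i ∨ b i ≤ x) with hF
  have hsub : {ξ : Cfg N | ¬ ((∀ i ∈ I, ξ ∈ G i ∧ cnt ξ (a i) (b i) = cnt η (a i) (b i)) ∧
      (∀ x, (∀ i ∈ I, x < a i ∨ b i ≤ x) → occ ξ x = occ η x))} ⊆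
      ((⋃ i ∈ I, (G i)ᶜ) ∪ (⋃ i ∈ I, {ξ | cnt ξ (a i) (b i) ≠ cnt η (a i) (b i)})) ∪
        (⋃ x ∈ F, {ξ | occ ξ x ≠ occ η x}) := by
    intro ξ hξ
    by_contra hcon
    apply hξ
    rw [Set.mem_union, Set.mem_union, not_or, not_or] at hcon
    obtain ⟨⟨c1, c2⟩, c3⟩ := hcon
    refine ⟨fun i hi => ⟨?_, ?_⟩, fun x hx => ?_⟩
    · by_contra h
      exact c1 (Set.mem_biUnion hi h)
    · by_contra h
      exact c2 (Set.mem_biUnion hi h)
    · by_contra h
      apply c3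
      rcases lt_or_ge x N with hxN | hxN
      · exact Set.mem_biUnion (Finset.mem_filter.2 ⟨Finset.mem_range.2 hxN, hx⟩) h
      · exact absurd (by rw [occ_ge hxN, occ_ge hxN]) h
  refine (pr_mono hAdm U m hsub η).trans ?_
  refine (pr_union hAdm U m _ _ η).trans ?_
  have t1 := pr_union hAdm U m (⋃ i ∈ I, (G i)ᶜ)
    (⋃ i ∈ I, {ξ | cnt ξ (a i) (b i) ≠ cnt η (a i) (b i)}) η
  have t2 := pr_biUnion hAdm U m I (fun i => (G i)ᶜ) η
  have t3 := pr_biUnion hAdm U m I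
    (fun i => {ξ : Cfg N | cnt ξ (a i) (b i) ≠ cnt η (a i) (b i)}) η
  have t4 := pr_biUnion hAdm U m F (fun x => {ξ : Cfg N | occ ξ x ≠ occ η x}) η
  have t5 : ∑ i ∈ I, pr r l U m (G i)ᶜ η ≤ ∑ i ∈ I, err i := Finset.sum_le_sum h1
  have t6 : ∑ i ∈ I, pr r l U m {ξ | cnt ξ (a i) (b i) ≠ cnt η (a i) (b i)} η = 0 :=
    Finset.sum_eq_zero h2
  have t7 : ∑ x ∈ F, pr r l U m {ξ | occ ξ x ≠ occ η x} η = 0 :=
    Finset.sum_eq_zero fun x hx => h3 x (Finset.mem_filter.1 hx).2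
  linarith

end Pool.Agent.Helper98.EX
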