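import Pool.Agent.Helper98.EY.StmtsC

set_option autoImplicit false

namespace Pool.Agent.Helper98.EX

open Finset

theorem spot_small {N : ℕ} {A R : ℝ} (hN : 1 ≤ N) (hA : A ≤ (N : ℝ) ^ (-11 : ℝ))
    (hR : (N : ℝ) ^ (-2 : ℝ) ≤ R) : A / R ≤ 1 := by
  have hN' : (1 : ℝ) ≤ N := by exact_mod_cast hN
  have h1 : 0 < (N : ℝ) ^ (-2 : ℝ) := Real.rpow_pos_of_pos (by linarith) _
  have h2 : (N : ℝ) ^ (-11 : ℝ) ≤ (N : ℝ) ^ (-2 : ℝ) :=
    Real.rpow_le_rpow_of_exponent_le hN' (by norm_num)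
  rw [div_le_one (lt_of_lt_of_le h1 hR)]
  linarith

theorem spot_len_p {N w : ℕ} {r l : ℕ → ℝ} {C1 : ℝ} (hG : GE N r l w C1) {z y : ℕ}
    (hy : y + 1 < N) (h1 : 1 < vp r l z y) : y < z + w := by
  by_contra hcon
  push Not at hcon
  have h2 : vp r l z y ≤ 1 := by
    unfold vp
    exact spot_small (by omega) (hG.far z y hcon (by omega))
      (hG.rlow (y + 1) (by omega) hy)
  linarith

theorem spot_len_h {N w : ℕ} {r l : ℕ → ℝ} {C1 : ℝ} (hG : GE N r l w C1) {a z : ℕ}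
    (ha : 1 ≤ a) (haz : a ≤ z) (hz : z < N) (h1 : 1 < vh r l a z) : z < a + w := by
  by_contra hcon
  push Not at hcon
  have h2 : vh r l a z ≤ 1 := by
    unfold vh
    exact spot_small (by omega) (hG.far a z hcon hz)
      (hG.rlow a ha (by omega))
  linarith

/-- the failures of a candidate -/
def spot_P (r l : ℕ → ℝ) (D θ : ℝ) (g : ℕ) : Prop :=
  ∃ z y : ℕ, z ≤ y ∧ y < g ∧ (g : ℝ) ≤ y + 3 * D ∧ θ < vp r l z y

def spot_H (N : ℕ) (r l : ℕ → ℝ) (D θ : ℝ) (g : ℕ) : Prop :=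
  ∃ a z : ℕ, g ≤ a ∧ a ≤ z ∧ z < N ∧ (a : ℝ) < g + 3 * D ∧ θ < vh r l a z

section

variable {N w : ℕ} {r l : ℕ → ℝ} {C1 D θ : ℝ}

theorem spot_pp (hG : GE N r l w C1) (hθ : 1 ≤ θ) (hθ2 : N * Real.log N ^ 25 < θ ^ 2)
    {g1 g2 : ℕ} (h12 : (g1 : ℝ) + 7 * D ≤ g2) (hwD : 2 * (w : ℝ) ≤ D)
    (hfar : (g2 : ℝ) + 20 * D ≤ g1 + Real.log N ^ 8) (hN : g2 < N)
    (h1 : spot_P r l D θ g1) (h2 : spot_P r l D θ g2) : False := by
  obtain ⟨z, y, hzy, hy, hy', hv⟩ := h1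
  obtain ⟨z', y', hzy', hyy, hyy', hv'⟩ := h2
  have hD : 0 ≤ D := le_trans (by positivity) hwD
  have h12' : g1 ≤ g2 := by
    have : (g1 : ℝ) ≤ g2 := by linarith
    exact_mod_cast this
  have e1 := spot_len_p hG (z := z) (y := y) (by omega) (lt_of_le_of_lt hθ hv)
  have e2 := spot_len_p hG (z := z') (y := y') (by omega) (lt_of_le_of_lt hθ hv')
  have e1' : (y : ℝ) < z + w := by exact_mod_cast e1
  have e2' : (y' : ℝ) < z' + w := by exact_mod_cast e2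
  have hyR : (y : ℝ) < g1 := by exact_mod_cast hy
  have hyyR : (y' : ℝ) < g2 := by exact_mod_cast hyy
  have h3 : y < z' := by
    have : (y : ℝ) < z' := by linarith
    exact_mod_cast this
  have h4 := hG.pp z y z' y' hzy h3 hzy' (by omega) (by linarith)
  have h5 : θ * θ < vp r l z y * vp r l z' y' :=
    mul_lt_mul'' hv hv' (by linarith) (by linarith)
  nlinarith

theorem spot_hh (hG : GE N r l w C1) (hθ : 1 ≤ θ) (hθ2 : N * Real.log N ^ 25 < θ ^ 2)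
    {g1 g2 : ℕ} (hg1 : 1 ≤ g1) (h12 : (g1 : ℝ) + 7 * D ≤ g2) (hwD : 2 * (w : ℝ) ≤ D)
    (hfar : (g2 : ℝ) + 20 * D ≤ g1 + Real.log N ^ 8)
    (h1 : spot_H N r l D θ g1) (h2 : spot_H N r l D θ g2) : False := by
  obtain ⟨z, y, hgz, hzy, hy, hy', hv⟩ := h1
  obtain ⟨z', y', hgz', hzy', hyy, hyy', hv'⟩ := h2
  have hD : 0 ≤ D := le_trans (by positivity) hwD
  have e1 := spot_len_h hG (a := z) (z := y) (by omega) hzy hy (lt_of_le_of_lt hθ hv)
  have h12' : g1 ≤ g2 := by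
    have : (g1 : ℝ) ≤ g2 := by linarith
    exact_mod_cast this
  have e2 := spot_len_h hG (a := z') (z := y') (by omega) hzy' hyy (lt_of_le_of_lt hθ hv')
  have e1' : (y : ℝ) < z + w := by exact_mod_cast e1
  have e2' : (y' : ℝ) < z' + w := by exact_mod_cast e2
  have hgzR : (g1 : ℝ) ≤ z := by exact_mod_cast hgz
  have hgzR' : (g2 : ℝ) ≤ z' := by exact_mod_cast hgz'
  have h3 : y < z' := by
    have : (y : ℝ) < z' := by linarith
    exact_mod_cast this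
  have h4 := hG.hh z y z' y' (by omega) hzy h3 hzy' hyy (by linarith)
  have h5 : θ * θ < vh r l z y * vh r l z' y' :=
    mul_lt_mul'' hv hv' (by linarith) (by linarith)
  nlinarith

theorem spot_hp (hG : GE N r l w C1) (hθ : 1 ≤ θ) (hθ2 : N * Real.log N ^ 25 < θ ^ 2)
    {g1 g2 : ℕ} (hg1 : 1 ≤ g1) (h12 : (g1 : ℝ) + 7 * D ≤ g2) (hwD : 2 * (w : ℝ) ≤ D)
    (hfar : (g2 : ℝ) + 20 * D ≤ g1 + Real.log N ^ 8) (hN : g2 < N)
    (h1 : spot_H N r l D θ g1) (h2 : spot_P r l D θ g2) : False := by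
  obtain ⟨z, y, hgz, hzy, hy, hy', hv⟩ := h1
  obtain ⟨z', y', hzy', hyy, hyy', hv'⟩ := h2
  have hD : 0 ≤ D := le_trans (by positivity) hwD
  have e1 := spot_len_h hG (a := z) (z := y) (by omega) hzy hy (lt_of_le_of_lt hθ hv)
  have e2 := spot_len_p hG (z := z') (y := y') (by omega) (lt_of_le_of_lt hθ hv')
  have e1' : (y : ℝ) < z + w := by exact_mod_cast e1
  have e2' : (y' : ℝ) < z' + w := by exact_mod_cast e2
  have hgzR : (g1 : ℝ) ≤ z := by exact_mod_cast hgz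
  have hyyR : (y' : ℝ) < g2 := by exact_mod_cast hyy
  have h3 : y ≤ z' := by
    have : (y : ℝ) ≤ z' := by linarith
    exact_mod_cast this
  have h4 := hG.hp z y z' y' (by omega) hzy h3 hzy' (by omega) (by linarith)
  have h5 : θ * θ < vh r l z y * vp r l z' y' :=
    mul_lt_mul'' hv hv' (by linarith) (by linarith)
  nlinarith

end

theorem st_SPOT : ST_SPOT := by
  intro C1
  refine ⟨⌈Real.exp 100⌉₊, ?_⟩
  intro N w x r l θ hN hG hθ hθ2 hx1 hx2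
  have hNe : Real.exp 100 ≤ N := (Nat.le_ceil _).trans (by exact_mod_cast hN)
  have hN0 : (0 : ℝ) < N := lt_of_lt_of_le (Real.exp_pos _) hNe
  have hL : 100 ≤ Real.log N := by
    rw [Real.le_log_iff_exp_le hN0]
    exact hNe
  have hN1 : (1 : ℝ) ≤ N := by
    have := Real.add_one_le_exp (100 : ℝ)
    linarith
  have hwl := hG.wlog
  set L := Real.log N with hLdef
  have hL0 : 0 < L := by linarith
  have hθ1 : 1 ≤ θ := by
    by_contra hcon
    push Not at hcon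
    have h1 : (1 : ℝ) ≤ N * L ^ 25 := by
      have : (1 : ℝ) ≤ L ^ 25 := one_le_pow₀ (by linarith)
      nlinarith
    have h2 : θ ^ 2 < 1 := by nlinarith
    linarith
  -- powers
  have p2 : 10000 ≤ L ^ 2 := by nlinarith
  have p4 : 10000 * L ^ 2 ≤ L ^ 4 := by nlinarith [sq_nonneg L]
  have p6 : 10000 * L ^ 4 ≤ L ^ 6 := by
    have : L ^ 6 = L ^ 4 * L ^ 2 := by ring
    rw [this]
    nlinarith [pow_pos hL0 4]
  have p7 : 100 * L ^ 6 ≤ L ^ 7 := by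
    have : L ^ 7 = L ^ 6 * L := by ring
    rw [this]
    nlinarith [pow_pos hL0 6]
  have p8 : 100 * L ^ 7 ≤ L ^ 8 := by
    have : L ^ 8 = L ^ 7 * L := by ring
    rw [this]
    nlinarith [pow_pos hL0 7]
  set M : ℕ := ⌈L ^ 7⌉₊ with hM
  set K : ℕ := ⌈L ^ 6⌉₊ with hK
  have hM1 : L ^ 7 ≤ M := Nat.le_ceil _
  have hM2 : (M : ℝ) < L ^ 7 + 1 := Nat.ceil_lt_add_one (by positivity)
  have hK1 : L ^ 6 ≤ K := Nat.le_ceil _
  have hK2 : (K : ℝ) < L ^ 6 + 1 := Nat.ceil_lt_add_one (by positivity)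
  have hlow : 15 * M + 6 * w ≤ x := by
    have : (15 * M + 6 * w : ℝ) ≤ x := by linarith
    exact_mod_cast this
  have hhigh : x + M + 2 * K + 6 * w ≤ N := by
    have : (x + M + 2 * K + 6 * w : ℝ) ≤ N := by linarith
    exact_mod_cast this
  have hsh : ∀ u : ℕ, 6 * w ≤ u → u + K + 6 * w ≤ N + 1 →
      ∃ g, u ≤ g ∧ g < u + K ∧ Shal r l (L ^ 7) w g := hG.shal
  obtain ⟨g1, hg1a, hg1b, hS1⟩ := hsh (x - 15 * M) (by omega) (by omega)
  obtain ⟨g2, hg2a, hg2b, hS2⟩ := hsh (x - 7 * M) (by omega) (by omega)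
  obtain ⟨g3, hg3a, hg3b, hS3⟩ := hsh (x + M) (by omega) (by omega)
  have c1 : ((x - 15 * M : ℕ) : ℝ) = x - 15 * M := by
    rw [Nat.cast_sub (by omega)]
    push_cast
    ring
  have c2 : ((x - 7 * M : ℕ) : ℝ) = x - 7 * M := by
    rw [Nat.cast_sub (by omega)]
    push_cast
    ring
  have a1 : (x : ℝ) - 15 * M ≤ g1 := by
    rw [← c1]
    exact_mod_cast hg1a
  have b1 : (g1 : ℝ) < x - 15 * M + K := by
    rw [← c1]
    exact_mod_cast hg1b
  have a2 : (x : ℝ) - 7 * M ≤ g2 := by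
    rw [← c2]
    exact_mod_cast hg2a
  have b2 : (g2 : ℝ) < x - 7 * M + K := by
    rw [← c2]
    exact_mod_cast hg2b
  have a3 : (x : ℝ) + M ≤ g3 := by exact_mod_cast hg3a
  have b3 : (g3 : ℝ) < x + M + K := by exact_mod_cast hg3b
  have good : ∀ g : ℕ, |(g : ℝ) - x| ≤ 30 * L ^ 7 → Shal r l (L ^ 7) w g →
      ¬ spot_P r l (L ^ 7) θ g → ¬ spot_H N r l (L ^ 7) θ g →
      ∃ x1 : ℕ, |(x1 : ℝ) - x| ≤ 30 * L ^ 7 ∧ Shal r l (L ^ 7) w x1 ∧
      (∀ z y : ℕ, z ≤ y → y < x1 → (x1 : ℝ) ≤ y + 3 * L ^ 7 → vp r l z y ≤ θ) ∧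
      (∀ a z : ℕ, x1 ≤ a → a ≤ z → z < N → (a : ℝ) < x1 + 3 * L ^ 7 → vh r l a z ≤ θ) := by
    intro g hg hS hP hH
    refine ⟨g, hg, hS, ?_, ?_⟩
    · intro z y h1 h2 h3
      by_contra hcon
      push Not at hcon
      exact hP ⟨z, y, h1, h2, h3, hcon⟩
    · intro a z h1 h2 h3 h4
      by_contra hcon
      push Not at hcon
      exact hH ⟨a, z, h1, h2, h3, h4, hcon⟩
  have d1 : |(g1 : ℝ) - x| ≤ 30 * L ^ 7 := by
    rw [abs_le]
    constructor <;> linarith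
  have d2 : |(g2 : ℝ) - x| ≤ 30 * L ^ 7 := by
    rw [abs_le]
    constructor <;> linarith
  have d3 : |(g3 : ℝ) - x| ≤ 30 * L ^ 7 := by
    rw [abs_le]
    constructor <;> linarith
  have hg1p : 1 ≤ g1 := by
    have hw := hG.w1
    omega
  have hg2p : 1 ≤ g2 := by
    have hw := hG.w1
    omega
  have hg2N : g2 < N := by omega
  have hg3N : g3 < N := by omega
  have hwD : 2 * (w : ℝ) ≤ L ^ 7 := by linarith
  have f12 : (g1 : ℝ) + 7 * L ^ 7 ≤ g2 := by linarith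
  have f23 : (g2 : ℝ) + 7 * L ^ 7 ≤ g3 := by linarith
  have e12 : (g2 : ℝ) + 20 * L ^ 7 ≤ g1 + L ^ 8 := by linarith
  have e23 : (g3 : ℝ) + 20 * L ^ 7 ≤ g2 + L ^ 8 := by linarith
  by_contra hnone
  have t1 : spot_P r l (L ^ 7) θ g1 ∨ spot_H N r l (L ^ 7) θ g1 := by
    by_contra hcon
    push Not at hcon
    exact hnone (good g1 d1 hS1 hcon.1 hcon.2)
  have t2 : spot_P r l (L ^ 7) θ g2 ∨ spot_H N r l (L ^ 7) θ g2 := by
    by_contra hcon
    push Not at hcon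
    exact hnone (good g2 d2 hS2 hcon.1 hcon.2)
  have t3 : spot_P r l (L ^ 7) θ g3 ∨ spot_H N r l (L ^ 7) θ g3 := by
    by_contra hcon
    push Not at hcon
    exact hnone (good g3 d3 hS3 hcon.1 hcon.2)
  rcases t2 with t2 | t2
  · rcases t1 with t1 | t1
    · exact spot_pp hG hθ1 hθ2 f12 hwD e12 hg2N t1 t2
    · exact spot_hp hG hθ1 hθ2 hg1p f12 hwD e12 hg2N t1 t2
  · rcases t3 with t3 | t3
    · exact spot_hp hG hθ1 hθ2 hg2p f23 hwD e23 hg3N t2 t3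
    · exact spot_hh hG hθ1 hθ2 hg2p f23 hwD e23 t2 t3

end Pool.Agent.Helper98.EX
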